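import Mathlib
import Pool.Agent.Helper56.SKF.Defs2
import Pool.Agent.Helper34.SKF.Rank

/-!
# SKF-J: the p-map and the ranks of the reduced Lie superalgebra
-/

namespace Pool.Agent.Helper45.SKF

open Module Pool.Agent.Helper56.SKW Pool.Agent.Helper56.SKW.PBW Pool.Agent.Helper56.SKU
  Pool.Agent.Helper56.SKR Pool.Agent.Helper56.SKF Pool.Agent.Helper34.SKF

universe u v w

section red

variable {k : Type u} {L₀ L₁ : Type*} [Field k] [AddCommGroup L₀] [Module k L₀] [AddCommGroup L₁]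
  [Module k L₁]

theorem cE_res {g : LieSuper k L₀ L₁} {ν : L₁} {p : ℕ} (hp : 0 < p) {x x' : L₀}
    (hx : x ∈ cE g ν) (h : ∀ y, g.b01 x' y = ((g.b01 x) ^ p) y) : x' ∈ cE g ν := by
  obtain ⟨q, rfl⟩ := Nat.exists_eq_succ_of_ne_zero hp.ne'
  rw [mem_cE] at hx ⊢
  rw [h, pow_succ, Module.End.mul_apply, hx, map_zero]

/-- Powers of an endomorphism and of the induced endomorphism of a quotient. -/
private theorem pow_mkQ {M : Type*} [AddCommGroup M] [Module k M] {A : Submodule k M}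
    {f : M →ₗ[k] M} {f' : (M ⧸ A) →ₗ[k] (M ⧸ A)} (h : ∀ a, f' (A.mkQ a) = A.mkQ (f a)) (j : ℕ)
    (a : M) : (f' ^ j) (A.mkQ a) = A.mkQ ((f ^ j) a) := by
  induction j generalizing a with
  | zero => rfl
  | succ j ih => rw [pow_succ, pow_succ, Module.End.mul_apply, Module.End.mul_apply, h, ih]

/-- Powers of an endomorphism and of its restriction to a subspace. -/
private theorem pow_coe {M : Type*} [AddCommGroup M] [Module k M] {A : Submodule k M}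
    {f : M →ₗ[k] M} {f' : A →ₗ[k] A} (h : ∀ a, ((f' a : A) : M) = f a) (j : ℕ)
    (a : A) : (((f' ^ j) a : A) : M) = (f ^ j) a := by
  induction j generalizing a with
  | zero => rfl
  | succ j ih => rw [pow_succ, pow_succ, Module.End.mul_apply, Module.End.mul_apply, ih, h]

theorem gR_pow (h2 : (2 : k) ≠ 0) {g : LieSuper k L₀ L₁} {ν : L₁} {p : ℕ} {x x' : cE g ν}
    (h0 : g.b00 x' = (g.b00 x) ^ p) (h1 : g.b01 x' = (g.b01 x) ^ p) :
    (gR h2 g ν).b00 ((jE g ν).mkQ x') = ((gR h2 g ν).b00 ((jE g ν).mkQ x)) ^ p ∧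
      (gR h2 g ν).b01 ((jE g ν).mkQ x') = ((gR h2 g ν).b01 ((jE g ν).mkQ x)) ^ p := by
  constructor
  · apply LinearMap.ext
    intro a
    obtain ⟨a, rfl⟩ := (jE g ν).mkQ_surjective a
    have e1 : (gR h2 g ν).b00 ((jE g ν).mkQ x') ((jE g ν).mkQ a) =
        (jE g ν).mkQ ((subL (c_sub h2 (g := g) (ν := ν))).b00 x' a) := rfl
    have e2 : ∀ a, (gR h2 g ν).b00 ((jE g ν).mkQ x) ((jE g ν).mkQ a) =
        (jE g ν).mkQ ((subL (c_sub h2 (g := g) (ν := ν))).b00 x a) := fun _ => rfl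
    rw [pow_mkQ e2, e1]
    congr 1
    apply Subtype.ext
    have e3 : ∀ a, (((subL (c_sub h2 (g := g) (ν := ν))).b00 x a : cE g ν) : L₀) =
        g.b00 x a := fun _ => rfl
    rw [pow_coe e3, ← h0]
    rfl
  · apply LinearMap.ext
    intro a
    obtain ⟨a, rfl⟩ := (jO g ν).mkQ_surjective a
    have e1 : (gR h2 g ν).b01 ((jE g ν).mkQ x') ((jO g ν).mkQ a) =
        (jO g ν).mkQ ((subL (c_sub h2 (g := g) (ν := ν))).b01 x' a) := rfl
    have e2 : ∀ a, (gR h2 g ν).b01 ((jE g ν).mkQ x) ((jO g ν).mkQ a) =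
        (jO g ν).mkQ ((subL (c_sub h2 (g := g) (ν := ν))).b01 x a) := fun _ => rfl
    rw [pow_mkQ e2, e1]
    congr 1
    apply Subtype.ext
    have e3 : ∀ a, (((subL (c_sub h2 (g := g) (ν := ν))).b01 x a : cO g ν) : L₁) =
        g.b01 x a := fun _ => rfl
    rw [pow_coe e3, ← h1]
    rfl

theorem gR_res (h2 : (2 : k) ≠ 0) (g : LieSuper k L₀ L₁) (ν : L₁) (p : ℕ) (hp : 0 < p)
    (hres : ∀ x, ∃ x', g.b00 x' = (g.b00 x) ^ p ∧ g.b01 x' = (g.b01 x) ^ p)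
    (x : cE g ν ⧸ jE g ν) : ∃ x', (gR h2 g ν).b00 x' = ((gR h2 g ν).b00 x) ^ p ∧
      (gR h2 g ν).b01 x' = ((gR h2 g ν).b01 x) ^ p := by
  obtain ⟨⟨x, hx⟩, rfl⟩ := (jE g ν).mkQ_surjective x
  obtain ⟨x', h0, h1⟩ := hres x
  exact ⟨(jE g ν).mkQ ⟨x', cE_res hp hx fun y => by rw [h1]⟩, gR_pow h2 h0 h1⟩

/-- The rank of a form of the reduced Lie superalgebra. -/
private theorem bOdd_gR [FiniteDimensional k L₁] (h2 : (2 : k) ≠ 0)
    (g : LieSuper k L₀ L₁) (ν : L₁) (ψ' : (cE g ν ⧸ jE g ν) →ₗ[k] k) (ψ : L₀ →ₗ[k] k)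
    (h : ∀ x : cE g ν, ψ' ((jE g ν).mkQ x) = ψ x) :
    bOdd (gR h2 g ν) ψ' = finrank k (cO g ν) - finrank k (radH g ν ψ) := by
  set f : (cO g ν ⧸ jO g ν) →ₗ[k] ((cO g ν ⧸ jO g ν) →ₗ[k] k) := form₁ (gR h2 g ν) ψ' with hf
  set φ : cO g ν →ₗ[k] ((cO g ν ⧸ jO g ν) →ₗ[k] k) := f ∘ₗ (jO g ν).mkQ with hφ
  have e1 := LinearMap.finrank_range_add_finrank_ker f
  have e2 := LinearMap.finrank_range_add_finrank_ker φ
  have e3 : LinearMap.range φ = LinearMap.range f := by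
    rw [hφ, LinearMap.range_comp, Submodule.range_mkQ, Submodule.map_top]
  have e4 : LinearMap.ker φ = (radH g ν ψ).comap (cO g ν).subtype := by
    ext y
    rw [LinearMap.mem_ker]
    have e5 : ∀ y' : cO g ν, φ y ((jO g ν).mkQ y') = ψ (g.b11 y y') := by
      intro y'
      have : φ y ((jO g ν).mkQ y') =
        ψ' ((jE g ν).mkQ ((subL (c_sub h2 (g := g) (ν := ν))).b11 y y')) := rfl
      rw [this, h]
      rfl
    constructor
    · intro hy
      refine ⟨y.2, fun y' hy' => ?_⟩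
      have := e5 ⟨y', hy'⟩
      rw [hy] at this
      exact this.symm
    · intro hy
      apply LinearMap.ext
      intro y'
      obtain ⟨y', rfl⟩ := (jO g ν).mkQ_surjective y'
      rw [e5]
      exact hy.2 y' y'.2
  have e6 : radH g ν ψ ≤ cO g ν := fun y hy => hy.1
  have e7 : finrank k ((radH g ν ψ).comap (cO g ν).subtype) = finrank k (radH g ν ψ) :=
    (Submodule.comapSubtypeEquivOfLe e6).finrank_eq
  rw [e3, e4, e7] at e2
  have e8 : bOdd (gR h2 g ν) ψ' =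
    finrank k (cO g ν ⧸ jO g ν) - finrank k (LinearMap.ker f) := rfl
  rw [e8]
  omega

theorem gR_max [FiniteDimensional k L₀] [FiniteDimensional k L₁] [Infinite k] (h2 : (2 : k) ≠ 0)
    (g : LieSuper k L₀ L₁) (θ : L₀ →ₗ[k] k) (hmax : ∀ θ', bOdd g θ' ≤ bOdd g θ) (ν : L₁)
    (hν : ν ∈ LinearMap.ker (form₁ g θ)) :
    ∃ θ' : (cE g ν ⧸ jE g ν) →ₗ[k] k, (∀ x : cE g ν, θ' ((jE g ν).mkQ x) = θ x) ∧
      (∀ ψ, bOdd (gR h2 g ν) ψ ≤ bOdd (gR h2 g ν) θ') ∧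
      bOdd g θ = bOdd (gR h2 g ν) θ' + 2 * (finrank k L₁ - finrank k (cO g ν)) ∧
      g.b11 ν ν = 0 := by
  obtain ⟨r1, r2, r3⟩ := rank_red h2 g θ hmax ν hν
  have hθν : ∀ y, θ (g.b11 ν y) = 0 := by
    intro y
    have : form₁ g θ ν y = 0 := by
      rw [LinearMap.mem_ker.1 hν]
      rfl
    exact this
  have hjE : jE g ν ≤ LinearMap.ker (θ ∘ₗ (cE g ν).subtype) := by
    rintro ⟨x, hx⟩ ⟨y, hy⟩
    have hy' : g.b11 ν y = x := hy
    show θ x = 0
    rw [← hy', hθν]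
  set θ' : (cE g ν ⧸ jE g ν) →ₗ[k] k := (jE g ν).liftQ (θ ∘ₗ (cE g ν).subtype) hjE with hθ'
  have hθ'' : ∀ x : cE g ν, θ' ((jE g ν).mkQ x) = θ x := fun x => rfl
  have hle : finrank k (cO g ν) ≤ finrank k L₁ := Submodule.finrank_le _
  have hrad : ∀ ψ : L₀ →ₗ[k] k, finrank k (radH g ν ψ) ≤ finrank k (cO g ν) := fun ψ =>
    Submodule.finrank_mono fun y hy => hy.1
  have hb := bOdd_gR h2 g ν θ' θ hθ''
  refine ⟨θ', hθ'', fun ψ' => ?_, ?_, r1⟩
  · obtain ⟨ψ, hψ⟩ := LinearMap.exists_extend (ψ' ∘ₗ (jE g ν).mkQ)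
    have hψ' : ∀ x : cE g ν, ψ' ((jE g ν).mkQ x) = ψ x := by
      intro x
      have := LinearMap.congr_fun hψ x
      exact this.symm
    have hψν : ∀ y, ψ (g.b11 ν y) = 0 := by
      intro y
      have h3 := cyc111 h2 g ν y ν
      rw [g.symm11 y ν, r1, map_zero, LinearMap.zero_apply, add_zero, ← two_smul k] at h3
      have h4 : g.b11 ν y ∈ cE g ν := by
        rw [mem_cE]
        exact (smul_eq_zero.1 h3).resolve_left h2
      have h5 := hψ' ⟨g.b11 ν y, h4⟩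
      have h6 : (jE g ν).mkQ ⟨g.b11 ν y, h4⟩ = 0 := by
        rw [Submodule.mkQ_apply, Submodule.Quotient.mk_eq_zero]
        exact ⟨y, rfl⟩
      rw [h6, map_zero] at h5
      exact h5.symm
    rw [bOdd_gR h2 g ν ψ' ψ hψ', hb]
    have := r2 ψ hψν
    have := hrad θ
    have := hrad ψ
    omega
  · rw [hb]
    have := hrad θ
    omega

end red

end Pool.Agent.Helper45.SKF
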